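import Pool.Agent.H97.NR.Stmts

/-! Project NR, module R4A. -/

set_option linter.unusedVariables false
set_option linter.unusedSimpArgs false

namespace Pool.NR

universe u

variable {p : ℕ}

namespace R4A

/-- Cancel a multiple prime to `p`. -/
theorem mem_of_coprime {A : Type u} [AddCommGroup A] (hp : p.Prime) (H : AddSubgroup A) (x : A)
    (n : ℕ) (hn : ¬ p ∣ n) (h1 : n • x ∈ H) (h2 : p • x ∈ H) : x ∈ H := by
  have hc : Nat.Coprime n p := (hp.coprime_iff_not_dvd.2 hn).symm
  have hb := Nat.gcd_eq_gcd_ab n p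
  rw [hc] at hb
  have : x = (Nat.gcdA n p) • (n • x) + (Nat.gcdB n p) • (p • x) := by
    have h3 : ((1 : ℕ) : ℤ) • x = ((n : ℤ) * Nat.gcdA n p + (p : ℤ) * Nat.gcdB n p) • x := by
      rw [hb]
    rw [Nat.cast_one, one_smul] at h3
    rw [← natCast_zsmul x n, ← natCast_zsmul x p, smul_smul, smul_smul, ← add_smul]
    conv_lhs => rw [h3]
    congr 1
    ring
  rw [this]
  exact H.add_mem (H.zsmul_mem h1 _) (H.zsmul_mem h2 _)

/-- Multiples of an element killed by `n` depend on the class mod `n`. -/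
theorem nsmul_congr {A : Type u} [AddCommGroup A] {n a b : ℕ} {x : A} (hx : n • x = 0)
    (h : (a : ZMod n) = (b : ZMod n)) : a • x = b • x := by
  rw [ZMod.natCast_eq_natCast_iff] at h
  have key : ∀ c : ℕ, c • x = (c % n) • x := by
    intro c
    conv_lhs => rw [← Nat.div_add_mod c n]
    rw [add_smul, mul_comm, mul_smul, hx, smul_zero, zero_add]
  rw [key a, key b, h]

/-- The explicit relations of `tab4a`. -/
theorem relations {R : Type u} [NonUnitalRing R] {L : ZMod (p ^ 2)} {b c d : ZMod p} :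
    HasTab p R (tab4a L b c d) ↔ ∃ x y w z : R,
      AddSubgroup.closure ({x, y, w, z} : Set R) = ⊤ ∧
      p • x = w ∧ p • y = 0 ∧ p • w = z ∧ p • z = 0 ∧
      x * x = L.val • w ∧ x * y = b.val • z ∧ x * w = L.val • z ∧ x * z = 0 ∧
      y * x = c.val • z ∧ y * y = d.val • z ∧ y * w = 0 ∧ y * z = 0 ∧
      w * x = L.val • z ∧ w * y = 0 ∧ w * w = 0 ∧ w * z = 0 ∧
      z * x = 0 ∧ z * y = 0 ∧ z * w = 0 ∧ z * z = 0 := by
  constructor
  · rintro ⟨g, hg, hP, hM⟩
    refine ⟨g 0, g 1, g 2, g 3, ?_, ?_⟩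
    · rw [← hg]
      congr 1
      ext r
      simp only [Set.mem_insert_iff, Set.mem_singleton_iff, Set.mem_range]
      constructor
      · rintro (h | h | h | h)
        · exact ⟨0, h.symm⟩
        · exact ⟨1, h.symm⟩
        · exact ⟨2, h.symm⟩
        · exact ⟨3, h.symm⟩
      · rintro ⟨i, rfl⟩
        fin_cases i <;> simp
    · have P0 := hP 0
      have P1 := hP 1
      have P2 := hP 2
      have P3 := hP 3
      have M00 := hM 0 0
      have M01 := hM 0 1
      have M02 := hM 0 2
      have M03 := hM 0 3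
      have M10 := hM 1 0
      have M11 := hM 1 1
      have M12 := hM 1 2
      have M13 := hM 1 3
      have M20 := hM 2 0
      have M21 := hM 2 1
      have M22 := hM 2 2
      have M23 := hM 2 3
      have M30 := hM 3 0
      have M31 := hM 3 1
      have M32 := hM 3 2
      have M33 := hM 3 3
      simp [tab4a, Fin.sum_univ_four] at P0 P1 P2 P3 M00 M01 M02 M03 M10 M11 M12 M13 M20 M21 M22 M23 M30 M31 M32 M33
      exact ⟨P0, P1, P2, P3, M00, M01, M02, M03, M10, M11, M12, M13, M20, M21, M22, M23, M30, M31,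
        M32, M33⟩
  · rintro ⟨x, y, w, z, hcl, P0, P1, P2, P3, M00, M01, M02, M03, M10, M11, M12, M13, M20, M21, M22,
      M23, M30, M31, M32, M33⟩
    refine ⟨![x, y, w, z], ?_, ?_, ?_⟩
    · rw [← hcl]
      congr 1
      ext r
      simp only [Set.mem_insert_iff, Set.mem_singleton_iff, Set.mem_range]
      constructor
      · rintro ⟨i, rfl⟩
        fin_cases i <;> simp
      · rintro (h | h | h | h)
        · exact ⟨0, h.symm⟩
        · exact ⟨1, h.symm⟩
        · exact ⟨2, h.symm⟩
        · exact ⟨3, h.symm⟩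
    · intro i
      fin_cases i <;> simp [tab4a, Fin.sum_univ_four, P0, P1, P2, P3]
    · intro i j
      fin_cases i <;> fin_cases j <;> simp [tab4a, Fin.sum_univ_four, *]

/-- A change of generators. -/
theorem change [hp : Fact p.Prime] {R : Type u} [NonUnitalRing R] {L L' : ZMod (p ^ 2)}
    {b c d b' c' d' : ZMod p} (U k v : ℕ) (hU : ¬ p ∣ U) (hv : ¬ p ∣ v)
    (h1 : ((U * L'.val : ℕ) : ZMod (p ^ 2)) =
      ((U * U * L.val + p * (U * k * (b.val + c.val) + k * k * d.val) : ℕ) : ZMod (p ^ 2)))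
    (h2 : (U : ZMod p) * b' = v * (U * b + k * d))
    (h3 : (U : ZMod p) * c' = v * (U * c + k * d))
    (h4 : (U : ZMod p) * d' = v * v * d)
    (h : HasTab p R (tab4a L b c d)) : HasTab p R (tab4a L' b' c' d') := by
  have : NeZero p := ⟨hp.out.ne_zero⟩
  have : NeZero (p ^ 2) := ⟨pow_ne_zero 2 hp.out.ne_zero⟩
  rw [relations] at h ⊢
  obtain ⟨x, y, w, z, hcl, P0, P1, P2, P3, M00, M01, M02, M03, M10, M11, M12, M13, M20, M21, M22,
    M23, M30, M31, M32, M33⟩ := h
  have hw : (p ^ 2) • w = 0 := by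
    rw [pow_two, mul_smul, P2, P3]
  have e1 : (U * L'.val) • w =
      (U * U * L.val + p * (U * k * (b.val + c.val) + k * k * d.val)) • w := nsmul_congr hw h1
  have e2 : (U * b'.val) • z = (v * (U * b.val + k * d.val)) • z := by
    apply nsmul_congr P3
    push_cast
    simp only [ZMod.natCast_val, ZMod.cast_id', id]
    exact h2
  have e3 : (U * c'.val) • z = (v * (U * c.val + k * d.val)) • z := by
    apply nsmul_congr P3
    push_cast
    simp only [ZMod.natCast_val, ZMod.cast_id', id]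
    exact h3
  have e4 : (U * d'.val) • z = (v * v * d.val) • z := by
    apply nsmul_congr P3
    push_cast
    simp only [ZMod.natCast_val, ZMod.cast_id', id]
    exact h4
  have e5 : (U * L'.val) • z = (U * U * L.val) • z := by
    have := congrArg (fun r => p • r) e1
    rw [smul_comm p, smul_comm p, P2, add_smul, mul_comm p, mul_smul _ p, P3, smul_zero,
      add_zero] at this
    exact this
  refine ⟨U • x + k • y, v • y, U • w, U • z, ?_, ?_, ?_, ?_, ?_, ?_, ?_, ?_, ?_, ?_, ?_, ?_, ?_,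
    ?_, ?_, ?_, ?_, ?_, ?_, ?_, ?_⟩
  · set H := AddSubgroup.closure ({U • x + k • y, v • y, U • w, U • z} : Set R) with hH
    have m1 : U • x + k • y ∈ H := AddSubgroup.subset_closure (by simp)
    have m2 : v • y ∈ H := AddSubgroup.subset_closure (by simp)
    have m3 : U • w ∈ H := AddSubgroup.subset_closure (by simp)
    have m4 : U • z ∈ H := AddSubgroup.subset_closure (by simp)
    have nz : z ∈ H := mem_of_coprime hp.out H z U hU m4 (by rw [P3]; exact H.zero_mem)
    have nw : w ∈ H := mem_of_coprime hp.out H w U hU m3 (by rw [P2]; exact nz)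
    have ny : y ∈ H := mem_of_coprime hp.out H y v hv m2 (by rw [P1]; exact H.zero_mem)
    have nx : x ∈ H := by
      refine mem_of_coprime hp.out H x U hU ?_ (by rw [P0]; exact nw)
      have := H.sub_mem m1 (H.nsmul_mem ny k)
      rwa [add_sub_cancel_right] at this
    rw [eq_top_iff, ← hcl, AddSubgroup.closure_le]
    rintro r (rfl | rfl | rfl | rfl)
    · exact nx
    · exact ny
    · exact nw
    · exact nz
  · rw [smul_add, smul_comm p U x, P0, smul_comm p k y, P1, smul_zero, add_zero]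
  · rw [smul_comm, P1, smul_zero]
  · rw [smul_comm, P2]
  · rw [smul_comm, P3, smul_zero]
  · have h5 : (U • x + k • y) * (U • x + k • y) =
        (U * U) • (x * x) + (U * k) • (x * y) + (U * k) • (y * x) + (k * k) • (y * y) := by
      simp only [add_mul, mul_add, smul_mul_assoc, mul_smul_comm]
      module
    rw [h5, smul_smul, mul_comm L'.val, e1, M00, M01, M10, M11, ← P2]
    simp only [smul_smul, ← add_smul]
    congr 1
    ring
  · have h5 : (U • x + k • y) * (v • y) = (U * v) • (x * y) + (k * v) • (y * y) := by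
      simp only [add_mul, mul_add, smul_mul_assoc, mul_smul_comm]
      module
    rw [h5, smul_smul, mul_comm b'.val, e2, M01, M11]
    simp only [smul_smul, ← add_smul]
    congr 1
    ring
  · have h5 : (U • x + k • y) * (U • w) = (U * U) • (x * w) + (k * U) • (y * w) := by
      simp only [add_mul, mul_add, smul_mul_assoc, mul_smul_comm]
      module
    rw [h5, smul_smul, mul_comm L'.val, e5, M02, M12]
    simp only [smul_smul, smul_zero, add_zero]
  · simp [add_mul, mul_add, smul_mul_assoc, mul_smul_comm, M03, M13]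
  · have h5 : (v • y) * (U • x + k • y) = (U * v) • (y * x) + (k * v) • (y * y) := by
      simp only [add_mul, mul_add, smul_mul_assoc, mul_smul_comm]
      module
    rw [h5, smul_smul, mul_comm c'.val, e3, M10, M11]
    simp only [smul_smul, ← add_smul]
    congr 1
    ring
  · have h5 : (v • y) * (v • y) = (v * v) • (y * y) := by
      simp only [add_mul, mul_add, smul_mul_assoc, mul_smul_comm]
      module
    rw [h5, smul_smul, mul_comm d'.val, e4, M11]
    simp only [smul_smul]
  · simp [add_mul, mul_add, smul_mul_assoc, mul_smul_comm, M12]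
  · simp [add_mul, mul_add, smul_mul_assoc, mul_smul_comm, M13]
  · have h5 : (U • w) * (U • x + k • y) = (U * U) • (w * x) + (k * U) • (w * y) := by
      simp only [add_mul, mul_add, smul_mul_assoc, mul_smul_comm]
      module
    rw [h5, smul_smul, mul_comm L'.val, e5, M20, M21]
    simp only [smul_smul, smul_zero, add_zero]
  · simp [add_mul, mul_add, smul_mul_assoc, mul_smul_comm, M21]
  · simp [add_mul, mul_add, smul_mul_assoc, mul_smul_comm, M22]
  · simp [add_mul, mul_add, smul_mul_assoc, mul_smul_comm, M23]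
  · simp [add_mul, mul_add, smul_mul_assoc, mul_smul_comm, M30, M31]
  · simp [add_mul, mul_add, smul_mul_assoc, mul_smul_comm, M31]
  · simp [add_mul, mul_add, smul_mul_assoc, mul_smul_comm, M32]
  · simp [add_mul, mul_add, smul_mul_assoc, mul_smul_comm, M33]

/-- Multiples of `p` in `ZMod (p ^ 2)`. -/
def pm (p : ℕ) (a : ZMod p) : ZMod (p ^ 2) := ((p * a.val : ℕ) : ZMod (p ^ 2))

theorem pm_nat [hp : Fact p.Prime] (n : ℕ) (a : ZMod p) (h : (n : ZMod p) = a) :
    ((p * n : ℕ) : ZMod (p ^ 2)) = pm p a := by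
  have : NeZero p := ⟨hp.out.ne_zero⟩
  unfold pm
  rw [ZMod.natCast_eq_natCast_iff, pow_two]
  apply Nat.ModEq.mul_left'
  rw [← ZMod.natCast_eq_natCast_iff, h, ZMod.natCast_val, ZMod.cast_id', id]

theorem pm_add [hp : Fact p.Prime] (a b : ZMod p) : pm p (a + b) = pm p a + pm p b := by
  have : NeZero p := ⟨hp.out.ne_zero⟩
  rw [← pm_nat (a.val + b.val) (a + b) (by push_cast; simp)]
  unfold pm
  push_cast
  ring

theorem pm_mul [hp : Fact p.Prime] (U : ℕ) (a : ZMod p) :
    pm p ((U : ZMod p) * a) = (U : ZMod (p ^ 2)) * pm p a := by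
  have : NeZero p := ⟨hp.out.ne_zero⟩
  rw [← pm_nat (U * a.val) ((U : ZMod p) * a) (by push_cast; simp)]
  unfold pm
  push_cast
  ring

theorem pm_zero : pm p 0 = 0 := by
  unfold pm
  simp

theorem pm_one [hp : Fact p.Prime] : pm p 1 = (p : ZMod (p ^ 2)) := by
  rw [← pm_nat 1 1 (by simp)]
  simp

/-- A nonunit is a multiple of `p`. -/
theorem exists_pm [hp : Fact p.Prime] (L : ZMod (p ^ 2)) (h : ¬ IsUnit L) : ∃ a, L = pm p a := by
  have : NeZero p := ⟨hp.out.ne_zero⟩
  have : NeZero (p ^ 2) := ⟨pow_ne_zero 2 hp.out.ne_zero⟩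
  have h1 : ((L.val : ℕ) : ZMod (p ^ 2)) = L := by simp
  have h2 : ¬ Nat.Coprime L.val (p ^ 2) := by
    intro h3
    apply h
    rw [← h1]
    exact (ZMod.isUnit_iff_coprime _ _).2 h3
  have h3 : p ∣ L.val := by
    by_contra h4
    apply h2
    exact Nat.Coprime.pow_right 2 ((hp.out.coprime_iff_not_dvd.2 h4).symm)
  obtain ⟨m, hm⟩ := h3
  refine ⟨(m : ZMod p), ?_⟩
  rw [← pm_nat m (m : ZMod p) rfl, ← hm, h1]

section steps

variable [hp : Fact p.Prime] {R : Type u} [NonUnitalRing R]

theorem not_dvd_val {v : ZMod p} (hv : v ≠ 0) : ¬ p ∣ v.val := by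
  have : NeZero p := ⟨hp.out.ne_zero⟩
  intro h
  apply hv
  rw [← ZMod.natCast_eq_zero_iff] at h
  simpa using h

theorem cast_ne {U : ℕ} (hU : ¬ p ∣ U) : (U : ZMod p) ≠ 0 := by
  rwa [Ne, ZMod.natCast_eq_zero_iff]

theorem one_nd : ¬ p ∣ 1 := hp.out.one_lt.ne' ∘ Nat.dvd_one.1

theorem su {L : ZMod (p ^ 2)} {b c d : ZMod p} (U : ℕ) (hU : ¬ p ∣ U)
    (h : HasTab p R (tab4a L b c d)) :
    HasTab p R (tab4a ((U : ZMod (p ^ 2)) * L) b c (d * (U : ZMod p)⁻¹)) := by
  have : NeZero p := ⟨hp.out.ne_zero⟩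
  have : NeZero (p ^ 2) := ⟨pow_ne_zero 2 hp.out.ne_zero⟩
  have hU' := cast_ne hU
  refine change U 0 1 hU one_nd ?_ ?_ ?_ ?_ h
  · push_cast
    rw [ZMod.natCast_val, ZMod.natCast_val, ZMod.cast_id']
    simp only [id]
    ring
  · push_cast
    ring
  · push_cast
    ring
  · field_simp
    push_cast
    ring

theorem sv {L : ZMod (p ^ 2)} {b c d : ZMod p} (v : ZMod p) (hv : v ≠ 0)
    (h : HasTab p R (tab4a L b c d)) :
    HasTab p R (tab4a L (v * b) (v * c) (v * v * d)) := by
  have : NeZero p := ⟨hp.out.ne_zero⟩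
  have : NeZero (p ^ 2) := ⟨pow_ne_zero 2 hp.out.ne_zero⟩
  refine change 1 0 v.val one_nd (not_dvd_val hv) ?_ ?_ ?_ ?_ h
  · simp
  · simp
  · simp
  · simp

theorem sk {L : ZMod (p ^ 2)} {b c d : ZMod p} (k : ZMod p)
    (h : HasTab p R (tab4a L b c d)) :
    HasTab p R (tab4a (L + pm p (k * (b + c) + k * k * d)) (b + k * d) (c + k * d) d) := by
  have : NeZero p := ⟨hp.out.ne_zero⟩
  have : NeZero (p ^ 2) := ⟨pow_ne_zero 2 hp.out.ne_zero⟩
  refine change 1 k.val 1 one_nd one_nd ?_ ?_ ?_ ?_ h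
  · have h1 := pm_nat (1 * k.val * (b.val + c.val) + k.val * k.val * d.val)
      (k * (b + c) + k * k * d) (by push_cast; simp)
    rw [Nat.cast_add, h1, one_mul, one_mul, one_mul]
    rw [ZMod.natCast_val, ZMod.natCast_val, ZMod.cast_id']
    simp only [id]
  · simp
  · simp
  · simp

theorem su' {a b c d : ZMod p} (v : ZMod p) (hv : v ≠ 0)
    (h : HasTab p R (tab4a (pm p a) b c d)) :
    HasTab p R (tab4a (pm p (v * a)) b c (d * v⁻¹)) := by
  have : NeZero p := ⟨hp.out.ne_zero⟩
  have h1 := su v.val (not_dvd_val hv) h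
  rw [← pm_mul] at h1
  simpa using h1

end steps

end R4A

open R4A in
theorem r4a (hk : KREStmt) : R4AStmt.{u} := by
  intro p hp R _ L b c d h
  have : NeZero p := ⟨hp.out.ne_zero⟩
  have : NeZero (p ^ 2) := ⟨pow_ne_zero 2 hp.out.ne_zero⟩
  have unit_step : ∀ (L : ZMod (p ^ 2)), IsUnit L → ∃ U : ℕ, ¬ p ∣ U ∧ (U : ZMod (p ^ 2)) * L = 1 := by
    intro L hL
    obtain ⟨V, hV⟩ := hL.exists_left_inv
    refine ⟨V.val, ?_, by simpa using hV⟩
    intro hdvd
    obtain ⟨m, hm⟩ := hdvd
    have h0 : ((V.val : ℕ) : ZMod (p ^ 2)) = V := by simp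
    have h1 : (p : ZMod (p ^ 2)) * V = 0 := by
      rw [← h0, hm]
      have : ((p * (p * m) : ℕ) : ZMod (p ^ 2)) = 0 := by
        rw [ZMod.natCast_eq_zero_iff]
        exact ⟨m, by ring⟩
      exact_mod_cast this
    have h2 : (p : ZMod (p ^ 2)) = 0 := by
      calc (p : ZMod (p ^ 2)) = p * (V * L) := by rw [hV, mul_one]
        _ = (p * V) * L := by ring
        _ = 0 := by rw [h1, zero_mul]
    rw [ZMod.natCast_eq_zero_iff] at h2
    have h3 := Nat.le_of_dvd hp.out.pos h2
    nlinarith [hp.out.two_le]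
  by_cases hd : d = 0
  · subst hd
    by_cases hL : IsUnit L
    · obtain ⟨U, hU, hUL⟩ := unit_step L hL
      have h1 := su U hU h
      rw [hUL, zero_mul] at h1
      by_cases hb : b = 0
      · subst hb
        by_cases hc : c = 0
        · subst hc
          exact ⟨1, 0, 0, 0, NF4a.a3 0 0 (Or.inl ⟨rfl, rfl⟩), h1⟩
        · have h2 := sv c⁻¹ (inv_ne_zero hc) h1
          rw [mul_zero, mul_zero, inv_mul_cancel₀ hc] at h2
          exact ⟨1, 0, 1, 0, NF4a.a3 0 1 (Or.inr (Or.inr ⟨rfl, rfl⟩)), h2⟩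
      · have h2 := sv b⁻¹ (inv_ne_zero hb) h1
        rw [mul_zero, inv_mul_cancel₀ hb] at h2
        exact ⟨1, 1, b⁻¹ * c, 0, NF4a.a3 1 _ (Or.inr (Or.inl rfl)), h2⟩
    · obtain ⟨a, rfl⟩ := exists_pm L hL
      by_cases hs : b + c = 0
      · have hc : c = -b := by linear_combination hs
        subst hc
        by_cases hb : b = 0
        · subst hb
          by_cases ha : a = 0
          · subst ha
            rw [pm_zero] at h
            exact ⟨0, 0, -0, 0, NF4a.b5 0 (Or.inl rfl), h⟩
          · have h1 := su' a⁻¹ (inv_ne_zero ha) h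
            rw [inv_mul_cancel₀ ha, pm_one, zero_mul] at h1
            exact ⟨p, 0, -0, 0, NF4a.b6 0 (Or.inl rfl), h1⟩
        · have h1 := sv b⁻¹ (inv_ne_zero hb) h
          rw [mul_neg, inv_mul_cancel₀ hb, mul_zero] at h1
          by_cases ha : a = 0
          · subst ha
            rw [pm_zero] at h1
            exact ⟨0, 1, -1, 0, NF4a.b5 1 (Or.inr rfl), h1⟩
          · have h2 := su' a⁻¹ (inv_ne_zero ha) h1
            rw [inv_mul_cancel₀ ha, pm_one, zero_mul] at h2
            exact ⟨p, 1, -1, 0, NF4a.b6 1 (Or.inr rfl), h2⟩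
      · have h1 := sk (-(a / (b + c))) h
        have h0 : pm p a + pm p (-(a / (b + c)) * (b + c) + -(a / (b + c)) * -(a / (b + c)) * 0)
            = 0 := by
          rw [← pm_add]
          have : a + (-(a / (b + c)) * (b + c) + -(a / (b + c)) * -(a / (b + c)) * 0) = 0 := by
            field_simp
            ring
          rw [this, pm_zero]
        rw [h0, mul_zero, add_zero, add_zero] at h1
        by_cases hb : b = 0
        · subst hb
          have hc : c ≠ 0 := by
            rintro rfl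
            exact hs (by ring)
          have h2 := sv c⁻¹ (inv_ne_zero hc) h1
          rw [mul_zero, mul_zero, inv_mul_cancel₀ hc] at h2
          exact ⟨0, 0, 1, 0, NF4a.b4 0 1 (Or.inr ⟨rfl, rfl⟩) (by simp), h2⟩
        · have h2 := sv b⁻¹ (inv_ne_zero hb) h1
          rw [mul_zero, inv_mul_cancel₀ hb] at h2
          refine ⟨0, 1, b⁻¹ * c, 0, NF4a.b4 1 _ (Or.inl rfl) ?_, h2⟩
          intro h3
          apply hs
          field_simp at h3
          linear_combination h3
  · have h1 := sk (-(b / d)) h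
    have hb0 : b + -(b / d) * d = 0 := by
      field_simp
      ring
    rw [hb0] at h1
    revert h1
    generalize L + pm p (-(b / d) * (b + c) + -(b / d) * -(b / d) * d) = L1
    generalize c + -(b / d) * d = c1
    intro h1
    clear h hb0
    by_cases hL : IsUnit L1
    · obtain ⟨U, hU, hUL⟩ := unit_step L1 hL
      have h2 := su U hU h1
      rw [hUL] at h2
      have hd1 : d * (U : ZMod p)⁻¹ ≠ 0 := mul_ne_zero hd (inv_ne_zero (cast_ne hU))
      revert hd1 h2
      generalize d * (U : ZMod p)⁻¹ = d1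
      intro h2 hd1
      by_cases hc : c1 = 0
      · subst hc
        obtain ⟨s, t, hs, ht, hst⟩ := hk p 2 d1 hd1
        have h3 := sv t⁻¹ (inv_ne_zero ht) h2
        rw [mul_zero] at h3
        have h4 : t⁻¹ * t⁻¹ * d1 = s := by
          rw [hst]
          field_simp
        rw [h4] at h3
        exact ⟨1, 0, 0, s, NF4a.a2 s hs, h3⟩
      · have h3 := sv c1⁻¹ (inv_ne_zero hc) h2
        rw [mul_zero, inv_mul_cancel₀ hc] at h3
        exact ⟨1, 0, 1, _, NF4a.a1 _ (mul_ne_zero (mul_ne_zero (inv_ne_zero hc) (inv_ne_zero hc))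
          hd1), h3⟩
    · obtain ⟨a, rfl⟩ := exists_pm L1 hL
      by_cases hc : c1 = 0
      · subst hc
        have h2 := su' d hd h1
        rw [mul_inv_cancel₀ hd] at h2
        by_cases ha : d * a = 0
        · rw [ha] at h2
          exact ⟨_, 0, 0, 1, NF4a.b3 0 (Or.inl rfl), h2⟩
        · obtain ⟨s, t, hs, ht, hst⟩ := hk p 2 (d * a) ha
          have h3 := su' (t⁻¹ * t⁻¹) (mul_ne_zero (inv_ne_zero ht) (inv_ne_zero ht)) h2
          have h4 : t⁻¹ * t⁻¹ * (d * a) = s := by
            rw [hst]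
            field_simp
          rw [h4] at h3
          have h5 := sv t⁻¹ (inv_ne_zero ht) h3
          have h6 : t⁻¹ * t⁻¹ * (1 * (t⁻¹ * t⁻¹)⁻¹) = 1 := by
            field_simp
          rw [mul_zero, h6] at h5
          exact ⟨_, 0, 0, 1, NF4a.b3 s (Or.inr hs), h5⟩
      · have h2 := sv c1⁻¹ (inv_ne_zero hc) h1
        rw [mul_zero, inv_mul_cancel₀ hc] at h2
        have hd1 : c1⁻¹ * c1⁻¹ * d ≠ 0 :=
          mul_ne_zero (mul_ne_zero (inv_ne_zero hc) (inv_ne_zero hc)) hd
        revert hd1 h2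
        generalize c1⁻¹ * c1⁻¹ * d = d1
        intro h2 hd1
        by_cases ha : a = 0
        · subst ha
          have h3 := su' d1 hd1 h2
          rw [mul_zero, pm_zero, mul_inv_cancel₀ hd1] at h3
          exact ⟨0, 0, 1, 1, NF4a.b2, h3⟩
        · have h3 := su' a⁻¹ (inv_ne_zero ha) h2
          rw [inv_mul_cancel₀ ha, pm_one] at h3
          exact ⟨p, 0, 1, _, NF4a.b1 _ (mul_ne_zero hd1 (inv_ne_zero (inv_ne_zero ha))), h3⟩

end Pool.NR
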