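import Pool.Agent.H97.NR.Stmts

/-! Project NR, module U2E. -/

set_option linter.unusedVariables false
set_option linter.unusedSimpArgs false

namespace Pool.NR

variable {p : ℕ}

/-- Extraction of the scalar equations. -/
theorem U2E.ext [Fact p.Prime] {a b c d a' b' c' d' : ZMod p} (hbc : b - c ≠ 0) (hbc' : b' - c' ≠ 0)
    (h : Eq2a (p := p) ![![1, 0, 0], ![0, a, b], ![0, c, d]] ![![1, 0, 0], ![0, a', b'], ![0, c', d']]) :
    ∃ f r x y z w : ZMod p, r ≠ 0 ∧ x * w - y * z ≠ 0 ∧ r = f ^ 2 ∧
      r * (b' - c') = (b - c) * (x * w - y * z) ∧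
      r * a' = x ^ 2 * a + x * z * (b + c) + z ^ 2 * d ∧
      r * b' = x * y * a + x * w * b + z * y * c + z * w * d ∧
      r * c' = x * y * a + y * z * b + w * x * c + z * w * d ∧
      r * d' = y ^ 2 * a + y * w * (b + c) + w ^ 2 * d := by
  obtain ⟨g, r, hg, hr, h⟩ := h
  have e00 := h 0 0
  have e01 := h 0 1
  have e02 := h 0 2
  have e10 := h 1 0
  have e11 := h 1 1
  have e12 := h 1 2
  have e20 := h 2 0
  have e21 := h 2 1
  have e22 := h 2 2
  simp [Fin.sum_univ_three] at e00 e01 e02 e10 e11 e12 e20 e21 e22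
  have hα : r * (b' - c') = (b - c) * (g 1 1 * g 2 2 - g 1 2 * g 2 1) := by
    linear_combination e12 - e21
  have hD : g 1 1 * g 2 2 - g 1 2 * g 2 1 ≠ 0 := by
    intro h0
    rw [h0, mul_zero] at hα
    rcases mul_eq_zero.1 hα with h | h
    · exact hr h
    · exact hbc' h
  have q1 : g 1 0 * g 2 1 - g 2 0 * g 1 1 = 0 := by
    have : (b - c) * (g 1 0 * g 2 1 - g 2 0 * g 1 1) = 0 := by
      linear_combination e10 - e01
    rcases mul_eq_zero.1 this with h | h
    · exact absurd h hbc
    · exact h
  have q2 : g 1 0 * g 2 2 - g 2 0 * g 1 2 = 0 := by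
    have : (b - c) * (g 1 0 * g 2 2 - g 2 0 * g 1 2) = 0 := by
      linear_combination e20 - e02
    rcases mul_eq_zero.1 this with h | h
    · exact absurd h hbc
    · exact h
  have g10 : g 1 0 = 0 := by
    have : g 1 0 * (g 1 1 * g 2 2 - g 1 2 * g 2 1) = 0 := by
      linear_combination g 1 1 * q2 - g 1 2 * q1
    rcases mul_eq_zero.1 this with h | h
    · exact h
    · exact absurd h hD
  have g20 : g 2 0 = 0 := by
    have : g 2 0 * (g 1 1 * g 2 2 - g 1 2 * g 2 1) = 0 := by
      linear_combination g 2 1 * q2 - g 2 2 * q1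
    rcases mul_eq_zero.1 this with h | h
    · exact h
    · exact absurd h hD
  simp only [g10, g20, zero_mul, mul_zero, add_zero, zero_add] at e00 e01 e02
  have hr2 : r = g 0 0 ^ 2 := by linear_combination e00
  have g00 : g 0 0 ≠ 0 := by
    intro h0
    rw [h0] at hr2
    exact hr (by rw [hr2]; ring)
  have g01 : g 0 1 = 0 := by
    have : g 0 0 * g 0 1 = 0 := e01.symm
    rcases mul_eq_zero.1 this with h | h
    · exact absurd h g00
    · exact h
  have g02 : g 0 2 = 0 := by
    have : g 0 0 * g 0 2 = 0 := e02.symm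
    rcases mul_eq_zero.1 this with h | h
    · exact absurd h g00
    · exact h
  simp only [g01, g02, zero_mul, mul_zero, add_zero, zero_add] at e11 e12 e21 e22
  refine ⟨g 0 0, r, g 1 1, g 1 2, g 2 1, g 2 2, hr, hD, hr2, ?_, ?_, ?_, ?_, ?_⟩
  · linear_combination hα
  · linear_combination e11
  · linear_combination e12
  · linear_combination e21
  · linear_combination e22

private theorem detrel [Fact p.Prime] {a b c d a' b' c' d' r x y z w : ZMod p}
    (e1 : r * a' = x ^ 2 * a + x * z * (b + c) + z ^ 2 * d)
    (e2 : r * b' = x * y * a + x * w * b + z * y * c + z * w * d)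
    (e3 : r * c' = x * y * a + y * z * b + w * x * c + z * w * d)
    (e4 : r * d' = y ^ 2 * a + y * w * (b + c) + w ^ 2 * d) :
    r ^ 2 * (a' * d' - b' * c') = (x * w - y * z) ^ 2 * (a * d - b * c) := by
  linear_combination (r * d') * e1 + (x ^ 2 * a + x * z * (b + c) + z ^ 2 * d) * e4 -
    (r * c') * e2 - (x * y * a + x * w * b + z * y * c + z * w * d) * e3

private theorem symrel [Fact p.Prime] {a b c d a' b' c' d' r x y z w : ZMod p}
    (e1 : r * a' = x ^ 2 * a + x * z * (b + c) + z ^ 2 * d)
    (e2 : r * b' = x * y * a + x * w * b + z * y * c + z * w * d)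
    (e3 : r * c' = x * y * a + y * z * b + w * x * c + z * w * d)
    (e4 : r * d' = y ^ 2 * a + y * w * (b + c) + w ^ 2 * d) :
    (x * w - y * z) ^ 2 * (b + c) =
      r * ((w * x + z * y) * (b' + c') - 2 * w * y * a' - 2 * z * x * d') := by
  linear_combination (2 * w * y) * e1 + (2 * z * x) * e4 - (w * x + z * y) * (e2 + e3)

private theorem two_ne [Fact p.Prime] (h2 : p ≠ 2) : (2 : ZMod p) ≠ 0 := by
  intro h3
  have : ((2 : ℕ) : ZMod p) = 0 := by exact_mod_cast h3
  rw [ZMod.natCast_eq_zero_iff] at this
  exact h2 ((Nat.prime_dvd_prime_iff_eq Fact.out Nat.prime_two).1 this)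

theorem u2e (hk : KR2Stmt) : U2EStmt := by
  intro p _ B B' hB hB' h
  cases hB with
  | m1 δ =>
    cases hB' with
    | m1 δ' =>
      obtain ⟨f, r, x, y, z, w, hr, hD, hf, hα, e1, e2, e3, e4⟩ := U2E.ext (by simp) (by simp) h
      have hrD : r = x * w - y * z := by linear_combination hα
      have := detrel e1 e2 e3 e4
      rw [← hrD] at this
      have := mul_left_cancel₀ (pow_ne_zero 2 hr) this
      have hδ : δ' = δ := by linear_combination this
      rw [hδ]
    | j1 h2 =>
      have h2' := two_ne h2
      obtain ⟨f, r, x, y, z, w, hr, hD, hf, hα, e1, e2, e3, e4⟩ := U2E.ext (by simp)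
        (by
          intro h0
          exact h2' (by linear_combination h0)) h
      exfalso
      have := symrel e1 e2 e3 e4
      have : (x * w - y * z) ^ 2 = 0 := by linear_combination this
      exact hD (pow_eq_zero_iff two_ne_zero |>.1 this)
    | e1 s h2 hs hs1 =>
      have h2' := two_ne h2
      have hs0 : s ≠ 0 := hs.1
      have h4s : 4 * s ≠ 0 := by
        have : (4 : ZMod p) = 2 * 2 := by norm_num
        rw [this]
        exact mul_ne_zero (mul_ne_zero h2' h2') hs0
      obtain ⟨f, r, x, y, z, w, hr, hD, hf, hα, e1, e2, e3, e4⟩ := U2E.ext (by simp) (by simp) h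
      exfalso
      obtain ⟨s0, hk0, hs01, hns, hall, -⟩ := (hk p).1 h2
      have hss : s = s0 := by
        rcases hall s hs with h | h
        · exact absurd h hs1
        · exact h
      rw [← hss] at hns
      apply hns
      have hrD : r = x * w - y * z := by linear_combination hα
      have hdet := detrel e1 e2 e3 e4
      rw [← hrD] at hdet
      have hdet := mul_left_cancel₀ (pow_ne_zero 2 hr) hdet
      have hinv : 4 * s * (4 * s)⁻¹ = 1 := mul_inv_cancel₀ h4s
      have h4δ : 4 * δ = 1 := by linear_combination (-4) * hdet + hinv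
      have hf0 : f ≠ 0 := by
        rintro rfl
        exact hr (by rw [hf]; ring)
      refine ⟨(2 * x + z) / (2 * f), ?_⟩
      field_simp
      linear_combination (4 * s) * (-hf) + 4 * e1 + z ^ 2 * h4δ
  | j1 h2 =>
    have h2' := two_ne h2
    cases hB' with
    | m1 δ' =>
      obtain ⟨f, r, x, y, z, w, hr, hD, hf, hα, e1, e2, e3, e4⟩ := U2E.ext
        (by
          intro h0
          exact h2' (by linear_combination h0)) (by simp) h
      exact absurd (show r = 0 by linear_combination e1) hr
    | j1 h2 => rfl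
    | e1 s h2 hs hs1 =>
      obtain ⟨f, r, x, y, z, w, hr, hD, hf, hα, e1, e2, e3, e4⟩ := U2E.ext
        (by
          intro h0
          exact h2' (by linear_combination h0)) (by simp) h
      have : r * s = 0 := by linear_combination e1
      rcases mul_eq_zero.1 this with h | h
      · exact absurd h hr
      · exact absurd h hs.1
  | e1 s h2 hs hs1 =>
    have h2' := two_ne h2
    have hs0 : s ≠ 0 := hs.1
    have h4s : 4 * s ≠ 0 := by
      have : (4 : ZMod p) = 2 * 2 := by norm_num
      rw [this]
      exact mul_ne_zero (mul_ne_zero h2' h2') hs0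
    have hinv : 4 * s * (4 * s)⁻¹ = 1 := mul_inv_cancel₀ h4s
    obtain ⟨s0, hk0, hs01, hns, hall, -⟩ := (hk p).1 h2
    have hss : s = s0 := by
      rcases hall s hs with h | h
      · exact absurd h hs1
      · exact h
    cases hB' with
    | m1 δ =>
      obtain ⟨f, r, x, y, z, w, hr, hD, hf, hα, e1, e2, e3, e4⟩ := U2E.ext (by simp) (by simp) h
      exfalso
      rw [← hss] at hns
      apply hns
      have hf0 : f ≠ 0 := by
        rintro rfl
        exact hr (by rw [hf]; ring)
      have key : 4 * s * f ^ 2 = (2 * s * x + z) ^ 2 := by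
        linear_combination (-4 * s) * hf + (4 * s) * e1 + z ^ 2 * hinv
      have hw : 2 * s * x + z ≠ 0 := by
        intro h0
        rw [h0] at key
        have : 4 * s * f ^ 2 ≠ 0 := mul_ne_zero h4s (pow_ne_zero 2 hf0)
        exact this (by rw [key]; ring)
      refine ⟨(2 * s * x + z) / (2 * f), ?_⟩
      field_simp
      linear_combination key
    | j1 h2 =>
      obtain ⟨f, r, x, y, z, w, hr, hD, hf, hα, e1, e2, e3, e4⟩ := U2E.ext (by simp)
        (by
          intro h0
          exact h2' (by linear_combination h0)) h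
      exfalso
      have := symrel e1 e2 e3 e4
      have : (x * w - y * z) ^ 2 = 0 := by linear_combination this
      exact hD (pow_eq_zero_iff two_ne_zero |>.1 this)
    | e1 s' h2 hs' hs1' =>
      have hss' : s' = s0 := by
        rcases hall s' hs' with h | h
        · exact absurd h hs1'
        · exact h
      rw [hss, hss']

end Pool.NR
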