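import Pool.Agent.H97.NR.Stmts

/-! Project NR, module V2M. -/

set_option linter.unusedVariables false
set_option linter.unusedSimpArgs false

namespace Pool.NR

variable {p : ℕ}

/-- Extraction of the scalar equations. -/
theorem V2M.ext [Fact p.Prime] {a b1 b2 c1 c2 m11 m12 m21 m22 a' b1' b2' c1' c2' n11 n12 n21 n22 : ZMod p}
    (h : Eq2b (T2b a b1 b2 c1 c2 m11 m12 m21 m22) (T2b a' b1' b2' c1' c2' n11 n12 n21 n22)) :
    ∃ u h1 h2 g11 g12 g21 g22 : ZMod p, u ≠ 0 ∧ g11 * g22 - g12 * g21 ≠ 0 ∧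
      u * a' = u ^ 2 * a + u * ((b1 + c1) * h1 + (b2 + c2) * h2) +
        (h1 ^ 2 * m11 + h1 * h2 * (m12 + m21) + h2 ^ 2 * m22) ∧
      u * b1' = u * (b1 * g11 + b2 * g21) + (h1 * m11 + h2 * m21) * g11 +
        (h1 * m12 + h2 * m22) * g21 ∧
      u * b2' = u * (b1 * g12 + b2 * g22) + (h1 * m11 + h2 * m21) * g12 +
        (h1 * m12 + h2 * m22) * g22 ∧
      u * c1' = u * (c1 * g11 + c2 * g21) + (h1 * m11 + h2 * m12) * g11 +
        (h1 * m21 + h2 * m22) * g21 ∧
      u * c2' = u * (c1 * g12 + c2 * g22) + (h1 * m11 + h2 * m12) * g12 +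
        (h1 * m21 + h2 * m22) * g22 ∧
      u * n11 = g11 ^ 2 * m11 + g11 * g21 * (m12 + m21) + g21 ^ 2 * m22 ∧
      u * n12 = g11 * g12 * m11 + g11 * g22 * m12 + g21 * g12 * m21 + g21 * g22 * m22 ∧
      u * n21 = g12 * g11 * m11 + g12 * g21 * m12 + g22 * g11 * m21 + g22 * g21 * m22 ∧
      u * n22 = g12 ^ 2 * m11 + g12 * g22 * (m12 + m21) + g22 ^ 2 * m22 := by
  obtain ⟨u, h1, h2, g11, g12, g21, g22, hu, hd, h⟩ := h
  have e00 := h 0 0
  have e01 := h 0 1
  have e02 := h 0 2
  have e10 := h 1 0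
  have e11 := h 1 1
  have e12 := h 1 2
  have e20 := h 2 0
  have e21 := h 2 1
  have e22 := h 2 2
  simp [T2b, Fin.sum_univ_three] at e00 e01 e02 e10 e11 e12 e20 e21 e22
  refine ⟨u, h1, h2, g11, g12, g21, g22, hu, hd, ?_, ?_, ?_, ?_, ?_, ?_, ?_, ?_, ?_⟩
  · linear_combination e00
  · linear_combination e01
  · linear_combination e02
  · linear_combination e10
  · linear_combination e20
  · linear_combination e11
  · linear_combination e12
  · linear_combination e21
  · linear_combination e22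

/-- `b = b' = 0` and nondegenerate `M`: `h = 0`. -/
theorem V2M.ext0 [Fact p.Prime] {a c1 c2 m11 m12 m21 m22 a' c1' c2' n11 n12 n21 n22 : ZMod p}
    (hM : m11 * m22 - m12 * m21 ≠ 0)
    (h : Eq2b (T2b a 0 0 c1 c2 m11 m12 m21 m22) (T2b a' 0 0 c1' c2' n11 n12 n21 n22)) :
    ∃ u g11 g12 g21 g22 : ZMod p, u ≠ 0 ∧ g11 * g22 - g12 * g21 ≠ 0 ∧
      a' = u * a ∧ c1' = c1 * g11 + c2 * g21 ∧ c2' = c1 * g12 + c2 * g22 ∧
      u * n11 = g11 ^ 2 * m11 + g11 * g21 * (m12 + m21) + g21 ^ 2 * m22 ∧
      u * n12 = g11 * g12 * m11 + g11 * g22 * m12 + g21 * g12 * m21 + g21 * g22 * m22 ∧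
      u * n21 = g12 * g11 * m11 + g12 * g21 * m12 + g22 * g11 * m21 + g22 * g21 * m22 ∧
      u * n22 = g12 ^ 2 * m11 + g12 * g22 * (m12 + m21) + g22 ^ 2 * m22 := by
  obtain ⟨u, h1, h2, g11, g12, g21, g22, hu, hd, ea, eb1, eb2, ec1, ec2, e11, e12, e21, e22⟩ :=
    V2M.ext h
  have k1 : h1 * m11 + h2 * m21 = 0 := by
    have : (h1 * m11 + h2 * m21) * (g11 * g22 - g12 * g21) = 0 := by
      linear_combination (-g22) * eb1 + g21 * eb2
    rcases mul_eq_zero.1 this with h | h
    · exact h
    · exact absurd h hd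
  have k2 : h1 * m12 + h2 * m22 = 0 := by
    have : (h1 * m12 + h2 * m22) * (g11 * g22 - g12 * g21) = 0 := by
      linear_combination g12 * eb1 - g11 * eb2
    rcases mul_eq_zero.1 this with h | h
    · exact h
    · exact absurd h hd
  have z1 : h1 = 0 := by
    have : h1 * (m11 * m22 - m12 * m21) = 0 := by linear_combination m22 * k1 - m21 * k2
    rcases mul_eq_zero.1 this with h | h
    · exact h
    · exact absurd h hM
  have z2 : h2 = 0 := by
    have : h2 * (m11 * m22 - m12 * m21) = 0 := by linear_combination m11 * k2 - m12 * k1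
    rcases mul_eq_zero.1 this with h | h
    · exact h
    · exact absurd h hM
  subst z1 z2
  refine ⟨u, g11, g12, g21, g22, hu, hd, ?_, ?_, ?_, e11, e12, e21, e22⟩
  · exact mul_left_cancel₀ hu (by linear_combination ea)
  · exact mul_left_cancel₀ hu (by linear_combination ec1)
  · exact mul_left_cancel₀ hu (by linear_combination ec2)

private theorem bit_eq [Fact p.Prime] {a a' u : ZMod p} (ha : Bit a) (ha' : Bit a') (hu : u ≠ 0)
    (h : a' = u * a) : a = a' := by
  rcases ha with rfl | rfl <;> rcases ha' with rfl | rfl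
  · rfl
  · simp at h
  · simp at h; exact absurd h.symm hu
  · rfl

theorem v2m : V2MStmt := by
  intro p _ B B' hB hB' h
  cases hB with
  | m1 δ a hδ h4 ha =>
    have hM : (1 : ZMod p) * δ - 1 * 0 ≠ 0 := by simpa using hδ
    cases hB' with
    | m1 δ' a' hδ' h4' ha' =>
      obtain ⟨u, g11, g12, g21, g22, hu, hd, ea, ec1, ec2, e11, e12, e21, e22⟩ := V2M.ext0 hM h
      have hud : u = g11 * g22 - g12 * g21 := by linear_combination e12 - e21
      have : u ^ 2 * δ' = u ^ 2 * δ := by
        have : u ^ 2 * δ' = (g11 * g22 - g12 * g21) ^ 2 * δ := by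
          linear_combination (u * δ') * e11 + (g11 ^ 2 * 1 + g11 * g21 * (1 + 0) + g21 ^ 2 * δ) * e22 -
            (u * 0) * e12 - (g11 * g12 * 1 + g11 * g22 * 1 + g21 * g12 * 0 + g21 * g22 * δ) * e21
        rw [this, ← hud]
      have hδδ : δ' = δ := mul_left_cancel₀ (pow_ne_zero 2 hu) this
      have := bit_eq ha ha' hu ea
      rw [hδδ, this]
    | m2 δ' a' hδ' h4' =>
      obtain ⟨u, g11, g12, g21, g22, hu, hd, ea, ec1, ec2, e11, e12, e21, e22⟩ := V2M.ext0 hM h
      simp at ec2
    | m3 τ a' h0 h1 h2 ha' =>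
      obtain ⟨u, g11, g12, g21, g22, hu, hd, ea, ec1, ec2, e11, e12, e21, e22⟩ := V2M.ext0 hM h
      simp at ec1
  | m2 δ a hδ h4 =>
    have hM : (1 : ZMod p) * δ - 1 * 0 ≠ 0 := by simpa using hδ
    cases hB' with
    | m1 δ' a' hδ' h4' ha' =>
      obtain ⟨u, g11, g12, g21, g22, hu, hd, ea, ec1, ec2, e11, e12, e21, e22⟩ := V2M.ext0 hM h
      exfalso
      have h1 : g21 = 0 := by linear_combination -ec1
      have h2 : g22 = 0 := by linear_combination -ec2
      apply hd
      rw [h1, h2]
      ring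
    | m2 δ' a' hδ' h4' =>
      obtain ⟨u, g11, g12, g21, g22, hu, hd, ea, ec1, ec2, e11, e12, e21, e22⟩ := V2M.ext0 hM h
      have h1 : g21 = 0 := by linear_combination -ec1
      have h2 : g22 = 1 := by linear_combination -ec2
      subst h1 h2
      have hu1 : u = g11 ^ 2 := by linear_combination e11
      have hg : g11 ≠ 0 := by
        rintro rfl
        apply hd
        ring
      have h3 : g12 = 0 := by
        have : g11 * g12 = 0 := by linear_combination -e21
        rcases mul_eq_zero.1 this with h | h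
        · exact absurd h hg
        · exact h
      subst h3
      have h4 : g11 = 1 := by
        have : g11 * g11 = g11 * 1 := by linear_combination e12 - hu1
        exact mul_left_cancel₀ hg this
      subst h4
      have h5 : u = 1 := by rw [hu1]; ring
      subst h5
      have e1 : a' = a := by rw [ea]; ring
      have e2 : δ' = δ := by linear_combination e22
      rw [e1, e2]
    | m3 τ a' h0 h1 h2 ha' =>
      obtain ⟨u, g11, g12, g21, g22, hu, hd, ea, ec1, ec2, e11, e12, e21, e22⟩ := V2M.ext0 hM h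
      exfalso
      have k1 : g21 = 1 := by linear_combination -ec1
      have k2 : g22 = 0 := by linear_combination -ec2
      subst k1 k2
      have k3 : g12 = 0 := by
        have : g12 ^ 2 = 0 := by linear_combination -e22
        exact pow_eq_zero_iff (two_ne_zero) |>.1 this
      subst k3
      apply hd
      ring
  | m3 τ a h0 h1 h2 ha =>
    have hM : (0 : ZMod p) * 0 - 1 * τ ≠ 0 := by simpa using h0
    cases hB' with
    | m1 δ' a' hδ' h4' ha' =>
      obtain ⟨u, g11, g12, g21, g22, hu, hd, ea, ec1, ec2, e11, e12, e21, e22⟩ := V2M.ext0 hM h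
      exfalso
      have h1 : g11 = 0 := by linear_combination -ec1
      have h2 : g12 = 0 := by linear_combination -ec2
      apply hd
      rw [h1, h2]
      ring
    | m2 δ' a' hδ' h4' =>
      obtain ⟨u, g11, g12, g21, g22, hu, hd, ea, ec1, ec2, e11, e12, e21, e22⟩ := V2M.ext0 hM h
      exfalso
      have k1 : g11 = 0 := by linear_combination -ec1
      subst k1
      apply hu
      linear_combination e11
    | m3 τ' a' h0' h1' h2' ha' =>
      obtain ⟨u, g11, g12, g21, g22, hu, hd, ea, ec1, ec2, e11, e12, e21, e22⟩ := V2M.ext0 hM h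
      have k1 : g11 = 1 := by linear_combination -ec1
      have k2 : g12 = 0 := by linear_combination -ec2
      subst k1 k2
      have k3 : u = g22 := by linear_combination e12
      have k4 : τ' = τ := by
        apply mul_left_cancel₀ hu
        linear_combination e21 + (-τ) * k3
      have := bit_eq ha ha' hu ea
      rw [k4, this]

end Pool.NR
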