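import Pool.Agent.H97.NR.Stmts

/-! Project NR, module Y3L. -/

set_option linter.unusedVariables false
set_option linter.unusedSimpArgs false

namespace Pool.NR

variable {p : ℕ}

/-- Extraction of the scalar equations. -/
theorem Y3L.ext [Fact p.Prime] {α β a c d e α' β' a' c' d' e' : ZMod p}
    (h : Eq3c (T3c α β a c d e) (T3c α' β' a' c' d' e')) :
    ∃ x y z w : ZMod p, x * w - y * z ≠ 0 ∧
      x * a' + z * d' = x ^ 2 * a + x * y * (-e) + y * x * (-e) + y ^ 2 * c ∧
      y * a' + w * d' = x ^ 2 * d + x * y * (α - a) + y * x * (β - a) + y ^ 2 * e ∧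
      x * (-e') + z * (α' - a') = x * z * a + x * w * (-e) + y * z * (-e) + y * w * c ∧
      y * (-e') + w * (α' - a') = x * z * d + x * w * (α - a) + y * z * (β - a) + y * w * e ∧
      x * (-e') + z * (β' - a') = z * x * a + z * y * (-e) + w * x * (-e) + w * y * c ∧
      y * (-e') + w * (β' - a') = z * x * d + z * y * (α - a) + w * x * (β - a) + w * y * e ∧
      x * c' + z * e' = z ^ 2 * a + z * w * (-e) + w * z * (-e) + w ^ 2 * c ∧
      y * c' + w * e' = z ^ 2 * d + z * w * (α - a) + w * z * (β - a) + w ^ 2 * e := by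
  obtain ⟨g, hg, h⟩ := h
  have e000 := h 0 0 0
  have e001 := h 0 0 1
  have e010 := h 0 1 0
  have e011 := h 0 1 1
  have e100 := h 1 0 0
  have e101 := h 1 0 1
  have e110 := h 1 1 0
  have e111 := h 1 1 1
  simp [T3c, T22, Fin.sum_univ_two] at e000 e001 e010 e011 e100 e101 e110 e111
  rw [Matrix.det_fin_two] at hg
  refine ⟨g 0 0, g 1 0, g 0 1, g 1 1, ?_, ?_, ?_, ?_, ?_, ?_, ?_, ?_, ?_⟩
  · intro h0
    exact hg (by linear_combination h0)
  · linear_combination e000
  · linear_combination e001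
  · linear_combination e010
  · linear_combination e011
  · linear_combination e100
  · linear_combination e101
  · linear_combination e110
  · linear_combination e111

/-- Extraction with traces. -/
theorem Y3L.ext1 [Fact p.Prime] {α β a c d e α' β' a' c' d' e' : ZMod p} (hp : Pt α β)
    (hp' : Pt α' β') (h : Eq3c (T3c α β a c d e) (T3c α' β' a' c' d' e')) :
    α' = α ∧ β' = β ∧ ∃ k t : ZMod p, t ≠ 0 ∧ c' = t ^ 2 * c ∧ e' = t * (e - k * c) ∧
      a' = a - 2 * k * e + k ^ 2 * c ∧
      t * d' = d + k * (α + β - 3 * a) + 3 * k ^ 2 * e - k ^ 3 * c := by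
  obtain ⟨x, y, z, w, hD, e000, e001, e010, e011, e100, e101, e110, e111⟩ := Y3L.ext h
  have t1 : (x * w - y * z) * α' = (x * w - y * z) * (x * α) := by
    linear_combination w * e000 - z * e001 - y * e010 + x * e011
  have t2 : (x * w - y * z) * 0 = (x * w - y * z) * (z * α) := by
    linear_combination w * e100 - z * e101 - y * e110 + x * e111
  have t3 : (x * w - y * z) * β' = (x * w - y * z) * (x * β) := by
    linear_combination w * e000 - z * e001 - y * e100 + x * e101
  have t4 : (x * w - y * z) * 0 = (x * w - y * z) * (z * β) := by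
    linear_combination w * e010 - z * e011 - y * e110 + x * e111
  replace t1 := mul_left_cancel₀ hD t1
  replace t2 := mul_left_cancel₀ hD t2
  replace t3 := mul_left_cancel₀ hD t3
  replace t4 := mul_left_cancel₀ hD t4
  have hz : z = 0 := by
    rcases hp with rfl | ⟨-, rfl⟩
    · linear_combination -t2
    · linear_combination -t4
  have hx : x = 1 := by
    rcases hp with rfl | ⟨rfl, rfl⟩
    · rcases hp' with rfl | ⟨rfl, -⟩
      · linear_combination -t1
      · exfalso
        have hx : x = 0 := by linear_combination -t1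
        apply hD
        rw [hx, hz]
        ring
    · rcases hp' with rfl | ⟨rfl, rfl⟩
      · simp at t1
      · linear_combination -t3
  subst hz hx
  have hw : w ≠ 0 := by
    intro h0
    apply hD
    rw [h0]
    ring
  have hα : α' = α := by linear_combination t1
  have hβ : β' = β := by linear_combination t3
  subst hα hβ
  have ha : a' = a - 2 * y * e + y ^ 2 * c := by linear_combination e000
  have hc : c' = w ^ 2 * c := by linear_combination e110
  have he : e' = w * (e - y * c) := by linear_combination -e010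
  refine ⟨rfl, rfl, y, w, hw, hc, he, ha, ?_⟩
  linear_combination e001 - y * ha

private theorem dec1 : ∀ k x y : ZMod 2, x + y + 1 = x + y - 2 * k * 1 + k ^ 2 * 0 → False := by
  decide

private theorem dec2 : ∀ k x y : ZMod 2, x + y = x + y + 1 - 2 * k * 1 + k ^ 2 * 0 → False := by
  decide

private theorem dec3 : ∀ k x y d d' : ZMod 2,
    1 * d' = d + k * (x + y - 3 * (x + y + 1)) + 3 * k ^ 2 * 1 - k ^ 3 * 0 → d' = d := by
  decide

theorem y3l (hk : KRUStmt) : Y3LStmt := by
  intro p _ B B' hB hB' h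
  cases hB with
  | l1 α β a c hp hc =>
    cases hB' with
    | l1 α' β' a' c' hp' hc' =>
      obtain ⟨rfl, rfl, k, t, ht, ec, ee, ea, ed⟩ := Y3L.ext1 hp hp' h
      have hk : k = 0 := by
        have : t * (k * c) = 0 := by linear_combination ee
        rcases mul_eq_zero.1 this with h | h
        · exact absurd h ht
        · rcases mul_eq_zero.1 h with h | h
          · exact h
          · exact absurd h hc
      subst hk
      have ht1 : t = 1 := by linear_combination ed
      subst ht1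
      have h1 : c' = c := by linear_combination ec
      have h2 : a' = a := by linear_combination ea
      rw [h1, h2]
    | l2 α' β' a' c' hp' hc' =>
      obtain ⟨rfl, rfl, k, t, ht, ec, ee, ea, ed⟩ := Y3L.ext1 hp hp' h
      exfalso
      have hk : k = 0 := by
        have : t * (k * c) = 0 := by linear_combination ee
        rcases mul_eq_zero.1 this with h | h
        · exact absurd h ht
        · rcases mul_eq_zero.1 h with h | h
          · exact h
          · exact absurd h hc
      subst hk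
      have : (1 : ZMod p) = 0 := by linear_combination -ed
      exact one_ne_zero this
    | l3 α' β' d' hp' h2' =>
      obtain ⟨rfl, rfl, k, t, ht, ec, ee, ea, ed⟩ := Y3L.ext1 hp hp' h
      exact absurd ec.symm (mul_ne_zero (pow_ne_zero 2 ht) hc)
    | l4 α' β' hp' h2' =>
      obtain ⟨rfl, rfl, k, t, ht, ec, ee, ea, ed⟩ := Y3L.ext1 hp hp' h
      exact absurd ec.symm (mul_ne_zero (pow_ne_zero 2 ht) hc)
    | l5 α' β' d' hp' h2' =>
      obtain ⟨rfl, rfl, k, t, ht, ec, ee, ea, ed⟩ := Y3L.ext1 hp hp' h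
      exact absurd ec.symm (mul_ne_zero (pow_ne_zero 2 ht) hc)
    | l6 α' β' a' hp' =>
      obtain ⟨rfl, rfl, k, t, ht, ec, ee, ea, ed⟩ := Y3L.ext1 hp hp' h
      exact absurd ec.symm (mul_ne_zero (pow_ne_zero 2 ht) hc)
    | l7 α' β' a' hp' h3' =>
      obtain ⟨rfl, rfl, k, t, ht, ec, ee, ea, ed⟩ := Y3L.ext1 hp hp' h
      exact absurd ec.symm (mul_ne_zero (pow_ne_zero 2 ht) hc)
  | l2 α β a c hp hc =>
    cases hB' with
    | l1 α' β' a' c' hp' hc' =>
      obtain ⟨rfl, rfl, k, t, ht, ec, ee, ea, ed⟩ := Y3L.ext1 hp hp' h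
      exfalso
      have hk : k = 0 := by
        have : t * (k * c) = 0 := by linear_combination ee
        rcases mul_eq_zero.1 this with h | h
        · exact absurd h ht
        · rcases mul_eq_zero.1 h with h | h
          · exact h
          · exact absurd h hc.1
      subst hk
      apply ht
      linear_combination ed
    | l2 α' β' a' c' hp' hc' =>
      obtain ⟨rfl, rfl, k, t, ht, ec, ee, ea, ed⟩ := Y3L.ext1 hp hp' h
      have hk0 : k = 0 := by
        have : t * (k * c) = 0 := by linear_combination ee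
        rcases mul_eq_zero.1 this with h | h
        · exact absurd h ht
        · rcases mul_eq_zero.1 h with h | h
          · exact h
          · exact absurd h hc.1
      subst hk0
      have h1 : c = c' := hk p 2 c c' t hc hc' ht (by rw [ec]; ring)
      have h2 : a' = a := by linear_combination ea
      rw [h1, h2]
    | l3 α' β' d' hp' h2' =>
      obtain ⟨rfl, rfl, k, t, ht, ec, ee, ea, ed⟩ := Y3L.ext1 hp hp' h
      exact absurd ec.symm (mul_ne_zero (pow_ne_zero 2 ht) hc.1)
    | l4 α' β' hp' h2' =>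
      obtain ⟨rfl, rfl, k, t, ht, ec, ee, ea, ed⟩ := Y3L.ext1 hp hp' h
      exact absurd ec.symm (mul_ne_zero (pow_ne_zero 2 ht) hc.1)
    | l5 α' β' d' hp' h2' =>
      obtain ⟨rfl, rfl, k, t, ht, ec, ee, ea, ed⟩ := Y3L.ext1 hp hp' h
      exact absurd ec.symm (mul_ne_zero (pow_ne_zero 2 ht) hc.1)
    | l6 α' β' a' hp' =>
      obtain ⟨rfl, rfl, k, t, ht, ec, ee, ea, ed⟩ := Y3L.ext1 hp hp' h
      exact absurd ec.symm (mul_ne_zero (pow_ne_zero 2 ht) hc.1)
    | l7 α' β' a' hp' h3' =>
      obtain ⟨rfl, rfl, k, t, ht, ec, ee, ea, ed⟩ := Y3L.ext1 hp hp' h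
      exact absurd ec.symm (mul_ne_zero (pow_ne_zero 2 ht) hc.1)
  | l3 α β d hp h2 =>
    cases hB' with
    | l1 α' β' a' c' hp' hc' =>
      obtain ⟨rfl, rfl, k, t, ht, ec, ee, ea, ed⟩ := Y3L.ext1 hp hp' h
      exact absurd (by rw [ec]; ring) hc'
    | l2 α' β' a' c' hp' hc' =>
      obtain ⟨rfl, rfl, k, t, ht, ec, ee, ea, ed⟩ := Y3L.ext1 hp hp' h
      exact absurd (by rw [ec]; ring) hc'.1
    | l3 α' β' d' hp' h2' =>
      obtain ⟨rfl, rfl, k, t, ht, ec, ee, ea, ed⟩ := Y3L.ext1 hp hp' h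
      have h2n : (2 : ZMod p) ≠ 0 := by
        intro h3
        have : ((2 : ℕ) : ZMod p) = 0 := by exact_mod_cast h3
        rw [ZMod.natCast_eq_zero_iff] at this
        exact h2 ((Nat.prime_dvd_prime_iff_eq Fact.out Nat.prime_two).1 this)
      have hk : k = 0 := by
        have : 2 * k = 0 := by linear_combination ea
        rcases mul_eq_zero.1 this with h | h
        · exact absurd h h2n
        · exact h
      subst hk
      have ht1 : t = 1 := by linear_combination -ee
      subst ht1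
      have h1 : d' = d := by linear_combination ed
      rw [h1]
    | l4 α' β' hp' h2' => exact absurd h2' h2
    | l5 α' β' d' hp' h2' => exact absurd h2' h2
    | l6 α' β' a' hp' =>
      obtain ⟨rfl, rfl, k, t, ht, ec, ee, ea, ed⟩ := Y3L.ext1 hp hp' h
      exact absurd (by linear_combination -ee) ht
    | l7 α' β' a' hp' h3' =>
      obtain ⟨rfl, rfl, k, t, ht, ec, ee, ea, ed⟩ := Y3L.ext1 hp hp' h
      exact absurd (by linear_combination -ee) ht
  | l4 α β hp h2 =>
    cases hB' with
    | l1 α' β' a' c' hp' hc' =>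
      obtain ⟨rfl, rfl, k, t, ht, ec, ee, ea, ed⟩ := Y3L.ext1 hp hp' h
      exact absurd (by rw [ec]; ring) hc'
    | l2 α' β' a' c' hp' hc' =>
      obtain ⟨rfl, rfl, k, t, ht, ec, ee, ea, ed⟩ := Y3L.ext1 hp hp' h
      exact absurd (by rw [ec]; ring) hc'.1
    | l3 α' β' d' hp' h2' => exact absurd h2 h2'
    | l4 α' β' hp' h2' =>
      obtain ⟨rfl, rfl, k, t, ht, ec, ee, ea, ed⟩ := Y3L.ext1 hp hp' h
      rfl
    | l5 α' β' d' hp' h2' =>
      obtain ⟨rfl, rfl, k, t, ht, ec, ee, ea, ed⟩ := Y3L.ext1 hp hp' h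
      exfalso
      subst h2
      exact dec1 _ _ _ ea
    | l6 α' β' a' hp' =>
      obtain ⟨rfl, rfl, k, t, ht, ec, ee, ea, ed⟩ := Y3L.ext1 hp hp' h
      exact absurd (by linear_combination -ee) ht
    | l7 α' β' a' hp' h3' =>
      obtain ⟨rfl, rfl, k, t, ht, ec, ee, ea, ed⟩ := Y3L.ext1 hp hp' h
      exact absurd (by linear_combination -ee) ht
  | l5 α β d hp h2 =>
    cases hB' with
    | l1 α' β' a' c' hp' hc' =>
      obtain ⟨rfl, rfl, k, t, ht, ec, ee, ea, ed⟩ := Y3L.ext1 hp hp' h
      exact absurd (by rw [ec]; ring) hc'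
    | l2 α' β' a' c' hp' hc' =>
      obtain ⟨rfl, rfl, k, t, ht, ec, ee, ea, ed⟩ := Y3L.ext1 hp hp' h
      exact absurd (by rw [ec]; ring) hc'.1
    | l3 α' β' d' hp' h2' => exact absurd h2 h2'
    | l4 α' β' hp' h2' =>
      obtain ⟨rfl, rfl, k, t, ht, ec, ee, ea, ed⟩ := Y3L.ext1 hp hp' h
      exfalso
      subst h2
      exact dec2 _ _ _ ea
    | l5 α' β' d' hp' h2' =>
      obtain ⟨rfl, rfl, k, t, ht, ec, ee, ea, ed⟩ := Y3L.ext1 hp hp' h
      have ht1 : t = 1 := by linear_combination -ee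
      subst ht1
      subst h2
      have h1 : d' = d := dec3 _ _ _ _ _ ed
      rw [h1]
    | l6 α' β' a' hp' =>
      obtain ⟨rfl, rfl, k, t, ht, ec, ee, ea, ed⟩ := Y3L.ext1 hp hp' h
      exact absurd (by linear_combination -ee) ht
    | l7 α' β' a' hp' h3' =>
      obtain ⟨rfl, rfl, k, t, ht, ec, ee, ea, ed⟩ := Y3L.ext1 hp hp' h
      exact absurd (by linear_combination -ee) ht
  | l6 α β a hp =>
    cases hB' with
    | l1 α' β' a' c' hp' hc' =>
      obtain ⟨rfl, rfl, k, t, ht, ec, ee, ea, ed⟩ := Y3L.ext1 hp hp' h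
      exact absurd (by rw [ec]; ring) hc'
    | l2 α' β' a' c' hp' hc' =>
      obtain ⟨rfl, rfl, k, t, ht, ec, ee, ea, ed⟩ := Y3L.ext1 hp hp' h
      exact absurd (by rw [ec]; ring) hc'.1
    | l3 α' β' d' hp' h2' =>
      obtain ⟨rfl, rfl, k, t, ht, ec, ee, ea, ed⟩ := Y3L.ext1 hp hp' h
      exact absurd (show (1 : ZMod p) = 0 by rw [ee]; ring) one_ne_zero
    | l4 α' β' hp' h2' =>
      obtain ⟨rfl, rfl, k, t, ht, ec, ee, ea, ed⟩ := Y3L.ext1 hp hp' h
      exact absurd (show (1 : ZMod p) = 0 by rw [ee]; ring) one_ne_zero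
    | l5 α' β' d' hp' h2' =>
      obtain ⟨rfl, rfl, k, t, ht, ec, ee, ea, ed⟩ := Y3L.ext1 hp hp' h
      exact absurd (show (1 : ZMod p) = 0 by rw [ee]; ring) one_ne_zero
    | l6 α' β' a' hp' =>
      obtain ⟨rfl, rfl, k, t, ht, ec, ee, ea, ed⟩ := Y3L.ext1 hp hp' h
      have h1 : a' = a := by linear_combination ea
      rw [h1]
    | l7 α' β' a' hp' h3' =>
      obtain ⟨rfl, rfl, k, t, ht, ec, ee, ea, ed⟩ := Y3L.ext1 hp hp' h
      have h1 : a' = a := by linear_combination ea
      subst h1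
      exact absurd (show t = 0 by linear_combination ed - k * h3') ht
  | l7 α β a hp h3 =>
    cases hB' with
    | l1 α' β' a' c' hp' hc' =>
      obtain ⟨rfl, rfl, k, t, ht, ec, ee, ea, ed⟩ := Y3L.ext1 hp hp' h
      exact absurd (by rw [ec]; ring) hc'
    | l2 α' β' a' c' hp' hc' =>
      obtain ⟨rfl, rfl, k, t, ht, ec, ee, ea, ed⟩ := Y3L.ext1 hp hp' h
      exact absurd (by rw [ec]; ring) hc'.1
    | l3 α' β' d' hp' h2' =>
      obtain ⟨rfl, rfl, k, t, ht, ec, ee, ea, ed⟩ := Y3L.ext1 hp hp' h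
      exact absurd (show (1 : ZMod p) = 0 by rw [ee]; ring) one_ne_zero
    | l4 α' β' hp' h2' =>
      obtain ⟨rfl, rfl, k, t, ht, ec, ee, ea, ed⟩ := Y3L.ext1 hp hp' h
      exact absurd (show (1 : ZMod p) = 0 by rw [ee]; ring) one_ne_zero
    | l5 α' β' d' hp' h2' =>
      obtain ⟨rfl, rfl, k, t, ht, ec, ee, ea, ed⟩ := Y3L.ext1 hp hp' h
      exact absurd (show (1 : ZMod p) = 0 by rw [ee]; ring) one_ne_zero
    | l6 α' β' a' hp' =>
      obtain ⟨rfl, rfl, k, t, ht, ec, ee, ea, ed⟩ := Y3L.ext1 hp hp' h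
      exfalso
      have : (1 : ZMod p) = 0 := by linear_combination -ed + k * h3
      exact one_ne_zero this
    | l7 α' β' a' hp' h3' =>
      obtain ⟨rfl, rfl, k, t, ht, ec, ee, ea, ed⟩ := Y3L.ext1 hp hp' h
      have h1 : a' = a := by linear_combination ea
      rw [h1]

end Pool.NR
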