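import Pool.Agent.H97.NR.Stmts

/-! Project NR, module Y3Z. -/

set_option linter.unusedVariables false
set_option linter.unusedSimpArgs false

namespace Pool.NR

variable {p : ℕ}

/-- Extraction of the scalar equations. -/
theorem Y3Z.ext [Fact p.Prime] {a c d e a' c' d' e' : ZMod p}
    (h : Eq3c (T3c 0 0 a c d e) (T3c 0 0 a' c' d' e')) :
    ∃ x0 y0 x1 y1 : ZMod p, x0 * y1 - x1 * y0 ≠ 0 ∧
      x0 * a' + x1 * d' = a * x0 ^ 2 - 2 * e * x0 * y0 + c * y0 ^ 2 ∧
      y0 * a' + y1 * d' = d * x0 ^ 2 - 2 * a * x0 * y0 + e * y0 ^ 2 ∧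
      - (x0 * e') - x1 * a' = a * x0 * x1 - e * (x0 * y1 + x1 * y0) + c * y0 * y1 ∧
      - (y0 * e') - y1 * a' = d * x0 * x1 - a * (x0 * y1 + x1 * y0) + e * y0 * y1 ∧
      x0 * c' + x1 * e' = a * x1 ^ 2 - 2 * e * x1 * y1 + c * y1 ^ 2 ∧
      y0 * c' + y1 * e' = d * x1 ^ 2 - 2 * a * x1 * y1 + e * y1 ^ 2 := by
  obtain ⟨g, hg, h⟩ := h
  have e000 := h 0 0 0
  have e001 := h 0 0 1
  have e010 := h 0 1 0
  have e011 := h 0 1 1
  have e110 := h 1 1 0
  have e111 := h 1 1 1
  simp [T3c, T22, Fin.sum_univ_two] at e000 e001 e010 e011 e110 e111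
  rw [Matrix.det_fin_two] at hg
  refine ⟨g 0 0, g 1 0, g 0 1, g 1 1, hg, ?_, ?_, ?_, ?_, ?_, ?_⟩
  · linear_combination e000
  · linear_combination e001
  · linear_combination e010
  · linear_combination e011
  · linear_combination e110
  · linear_combination e111

private theorem two_ne [Fact p.Prime] (h2 : p ≠ 2) : (2 : ZMod p) ≠ 0 := by
  intro h3
  have : ((2 : ℕ) : ZMod p) = 0 := by exact_mod_cast h3
  rw [ZMod.natCast_eq_zero_iff] at this
  exact h2 ((Nat.prime_dvd_prime_iff_eq Fact.out Nat.prime_two).1 this)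

private theorem sq0 [Fact p.Prime] {x : ZMod p} (h : x ^ 2 = 0) : x = 0 :=
  pow_eq_zero_iff two_ne_zero |>.1 h

private theorem mul0 [Fact p.Prime] {x y : ZMod p} (h : x * y = 0) : x = 0 ∨ y = 0 :=
  mul_eq_zero.1 h

/-- The first algebra has an invariant line, the second has none. -/
theorem Y3Z.line1 [Fact p.Prime] {a d e a' d' : ZMod p}
    (hr : ∀ t : ZMod p, t ^ 3 + 3 * a' * t - d' ≠ 0)
    (h : Eq3c (T3c 0 0 a 0 d e) (T3c 0 0 a' 1 d' 0)) : False := by
  obtain ⟨x0, y0, x1, y1, hD, E1, E2, E3, E4, E5, E6⟩ := Y3Z.ext h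
  have key : x0 ^ 3 + 3 * a' * x0 * x1 ^ 2 + d' * x1 ^ 3 = 0 := by
    linear_combination x1 ^ 2 * E1 - (2 * x0 * x1) * E3 + x0 ^ 2 * E5
  by_cases hx : x1 = 0
  · subst hx
    have : x0 ^ 3 = 0 := by linear_combination key
    have : x0 = 0 := pow_eq_zero_iff (by norm_num) |>.1 this
    subst this
    apply hD
    ring
  · apply hr (-(x0 / x1))
    field_simp
    linear_combination -key

/-- The second algebra has an invariant line, the first has none. -/
theorem Y3Z.line2 [Fact p.Prime] {a d a' d' e' : ZMod p}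
    (hr : ∀ t : ZMod p, t ^ 3 + 3 * a * t - d ≠ 0)
    (h : Eq3c (T3c 0 0 a 1 d 0) (T3c 0 0 a' 0 d' e')) : False := by
  obtain ⟨x0, y0, x1, y1, hD, E1, E2, E3, E4, E5, E6⟩ := Y3Z.ext h
  have key : y1 ^ 3 + 3 * a * x1 ^ 2 * y1 - d * x1 ^ 3 = 0 := by
    linear_combination x1 * E6 - y1 * E5
  by_cases hx : x1 = 0
  · subst hx
    have : y1 ^ 3 = 0 := by linear_combination key
    have : y1 = 0 := pow_eq_zero_iff (by norm_num) |>.1 this
    subst this
    apply hD
    ring
  · apply hr (y1 / x1)
    field_simp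
    linear_combination key

private theorem dec24 : ∀ x0 y0 x1 y1 d : ZMod 2, x0 * y1 - x1 * y0 ≠ 0 →
    - (y0 * 1) - y1 * 1 = 0 * x0 * x1 - 0 * (x0 * y1 + x1 * y0) + 1 * y0 * y1 →
    x0 * 0 + x1 * 1 = 0 * x1 ^ 2 - 2 * 1 * x1 * y1 + 0 * y1 ^ 2 →
    y0 * 0 + y1 * 1 = 0 * x1 ^ 2 - 2 * 0 * x1 * y1 + 1 * y1 ^ 2 → False := by
  decide

private theorem dec42 : ∀ x0 y0 x1 y1 d : ZMod 2, x0 * y1 - x1 * y0 ≠ 0 →
    x0 * 0 + x1 * 0 = 1 * x0 ^ 2 - 2 * 1 * x0 * y0 + 0 * y0 ^ 2 →
    y0 * 0 + y1 * 0 = d * x0 ^ 2 - 2 * 1 * x0 * y0 + 1 * y0 ^ 2 → False := by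
  decide

private theorem dec41 : ∀ x0 y0 x1 y1 d : ZMod 2, x0 * y1 - x1 * y0 ≠ 0 →
    x0 * 0 + x1 * 0 = 1 * x1 ^ 2 - 2 * 1 * x1 * y1 + 0 * y1 ^ 2 →
    y0 * 0 + y1 * 0 = d * x1 ^ 2 - 2 * 1 * x1 * y1 + 1 * y1 ^ 2 → False := by
  decide

private theorem dec44 : ∀ x0 y0 x1 y1 d d' : ZMod 2, x0 * y1 - x1 * y0 ≠ 0 →
    x0 * 1 + x1 * d' = 1 * x0 ^ 2 - 2 * 1 * x0 * y0 + 0 * y0 ^ 2 →
    y0 * 1 + y1 * d' = d * x0 ^ 2 - 2 * 1 * x0 * y0 + 1 * y0 ^ 2 →
    y0 * 0 + y1 * 1 = d * x1 ^ 2 - 2 * 1 * x1 * y1 + 1 * y1 ^ 2 → d = d' := by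
  decide

theorem y3z (hk : KRUStmt) (hc : CREStmt) : Y3ZStmt := by
  intro p _ B B' hB hB' h
  cases hB with
  | z1 d hd =>
    cases hB' with
    | z1 d' hd' =>
      obtain ⟨x0, y0, x1, y1, hD, E1, E2, E3, E4, E5, E6⟩ := Y3Z.ext h
      rcases hd with rfl | rfl <;> rcases hd' with rfl | rfl
      · rfl
      · exfalso
        have h1 : x1 = 0 := by linear_combination E1
        have h2 : y1 = 0 := by linear_combination E2
        apply hD
        rw [h1, h2]
        ring
      · exfalso
        have h1 : x0 = 0 := sq0 (by linear_combination -E2)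
        have h2 : x1 = 0 := sq0 (by linear_combination -E6)
        apply hD
        rw [h1, h2]
        ring
      · rfl
    | z2 =>
      obtain ⟨x0, y0, x1, y1, hD, E1, E2, E3, E4, E5, E6⟩ := Y3Z.ext h
      exfalso
      have h1 : x1 = 0 := by linear_combination E5
      subst h1
      have h2 : y1 = 0 := by linear_combination E6
      apply hD
      rw [h2]
      ring
    | z3 s h2 hs =>
      obtain ⟨x0, y0, x1, y1, hD, E1, E2, E3, E4, E5, E6⟩ := Y3Z.ext h
      exfalso
      have h1 : x1 = 0 := by linear_combination E5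
      subst h1
      have h2 : y1 = 0 := by linear_combination E6
      apply hD
      rw [h2]
      ring
    | z4 d' h2 =>
      obtain ⟨x0, y0, x1, y1, hD, E1, E2, E3, E4, E5, E6⟩ := Y3Z.ext h
      exfalso
      have h1 : x1 = 0 := by linear_combination E5
      subst h1
      have h2 : y1 = 0 := by linear_combination E6
      apply hD
      rw [h2]
      ring
    | z5 a' d' h3 hr => exact (Y3Z.line1 hr.1 h).elim
    | z6 h3 =>
      obtain ⟨x0, y0, x1, y1, hD, E1, E2, E3, E4, E5, E6⟩ := Y3Z.ext h
      exfalso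
      have h1 : x1 = 0 := by linear_combination -E3
      subst h1
      have h2 : y1 = 0 := by linear_combination -E4
      apply hD
      rw [h2]
      ring
  | z2 =>
    cases hB' with
    | z1 d' hd' =>
      obtain ⟨x0, y0, x1, y1, hD, E1, E2, E3, E4, E5, E6⟩ := Y3Z.ext h
      exfalso
      have h1 : y1 = 0 := sq0 (by linear_combination -E6)
      subst h1
      apply hD
      linear_combination -E3
    | z2 => rfl
    | z3 s h2 hs =>
      obtain ⟨x0, y0, x1, y1, hD, E1, E2, E3, E4, E5, E6⟩ := Y3Z.ext h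
      exfalso
      have h1 : y1 * (y1 - 1) = 0 := by linear_combination -E6
      rcases mul0 h1 with h1 | h1
      · subst h1
        have h3 : y0 = 0 := by linear_combination -E4
        apply hD
        rw [h3]
        ring
      · have h1 : y1 = 1 := by linear_combination h1
        subst h1
        have h3 : 2 * y0 = 0 := by linear_combination -E4
        rcases mul0 h3 with h3 | h3
        · exact two_ne h2 h3
        · subst h3
          apply hs.1
          linear_combination E2
    | z4 d' h2 =>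
      obtain ⟨x0, y0, x1, y1, hD, E1, E2, E3, E4, E5, E6⟩ := Y3Z.ext h
      subst h2
      exact (dec24 x0 y0 x1 y1 d' hD E4 E5 E6).elim
    | z5 a' d' h3 hr => exact (Y3Z.line1 hr.1 h).elim
    | z6 h3 =>
      obtain ⟨x0, y0, x1, y1, hD, E1, E2, E3, E4, E5, E6⟩ := Y3Z.ext h
      exfalso
      have h30 : (3 : ZMod p) = 0 := by
        subst h3
        rfl
      have h1 : y1 = 0 := sq0 (by linear_combination -E6)
      subst h1
      have h2 : x1 * (y0 - 1) = 0 := by linear_combination E3
      rcases mul0 h2 with h2 | h2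
      · subst h2
        apply hD
        ring
      · have h4 : y0 = 1 := by linear_combination h2
        subst h4
        have h5 : x1 = 0 := by linear_combination E1 - x0 * h30
        subst h5
        apply hD
        ring
  | z3 s h2 hs =>
    cases hB' with
    | z1 d' hd' =>
      obtain ⟨x0, y0, x1, y1, hD, E1, E2, E3, E4, E5, E6⟩ := Y3Z.ext h
      exfalso
      have h1 : (2 * x1) * y1 = 0 := by linear_combination E5
      rcases mul0 h1 with h1 | h1
      · rcases mul0 h1 with h1 | h1
        · exact two_ne h2 h1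
        · subst h1
          have h3 : y1 = 0 := sq0 (by linear_combination -E6)
          subst h3
          apply hD
          ring
      · subst h1
        have h3 : s * x1 ^ 2 = 0 := by linear_combination -E6
        rcases mul0 h3 with h3 | h3
        · exact hs.1 h3
        · have h3 := sq0 h3
          subst h3
          apply hD
          ring
    | z2 =>
      obtain ⟨x0, y0, x1, y1, hD, E1, E2, E3, E4, E5, E6⟩ := Y3Z.ext h
      exfalso
      have h1 : (2 * x0) * y0 = 0 := by linear_combination E1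
      rcases mul0 h1 with h1 | h1
      · rcases mul0 h1 with h1 | h1
        · exact two_ne h2 h1
        · subst h1
          have h3 : y0 = 0 := sq0 (by linear_combination -E2)
          subst h3
          apply hD
          ring
      · subst h1
        have h3 : s * x0 ^ 2 = 0 := by linear_combination -E2
        rcases mul0 h3 with h3 | h3
        · exact hs.1 h3
        · have h3 := sq0 h3
          subst h3
          apply hD
          ring
    | z3 s' h2' hs' =>
      obtain ⟨x0, y0, x1, y1, hD, E1, E2, E3, E4, E5, E6⟩ := Y3Z.ext h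
      by_cases hx : x1 = 0
      · subst hx
        have hx0 : x0 ≠ 0 := by
          rintro rfl
          apply hD
          ring
        have h3 : x0 * y1 = x0 * 1 := by linear_combination E3
        have h3 := mul_left_cancel₀ hx0 h3
        subst h3
        have h4 : 2 * y0 = 0 := by linear_combination -E4
        rcases mul0 h4 with h4 | h4
        · exact absurd h4 (two_ne h2)
        · subst h4
          have h5 : s = s' := hk p 2 s s' x0 hs hs' hx0 (by linear_combination E2)
          rw [h5]
      · have h3 : x1 * (1 + 2 * y1) = 0 := by linear_combination E5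
        rcases mul0 h3 with h3 | h3
        · exact absurd h3 hx
        · have h4 : x1 * s' = x1 * (s * (2 * x0) ^ 2) := by
            linear_combination E1 + 4 * x0 * E4 + 2 * x0 * y0 * h3
          have h4 := mul_left_cancel₀ hx h4
          have h5 : 2 * x0 ≠ 0 := by
            intro h0
            rw [h0] at h4
            exact hs'.1 (by rw [h4]; ring)
          have h6 : s = s' := hk p 2 s s' (2 * x0) hs hs' h5 h4
          rw [h6]
    | z4 d' h2' => exact absurd h2' h2
    | z5 a' d' h3 hr => exact (Y3Z.line1 hr.1 h).elim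
    | z6 h3 =>
      obtain ⟨x0, y0, x1, y1, hD, E1, E2, E3, E4, E5, E6⟩ := Y3Z.ext h
      exfalso
      have h1 : (2 * x1) * y1 = 0 := by linear_combination E5
      rcases mul0 h1 with h1 | h1
      · rcases mul0 h1 with h1 | h1
        · exact two_ne h2 h1
        · subst h1
          have h3 : y1 = 0 := sq0 (by linear_combination -E6)
          subst h3
          apply hD
          ring
      · subst h1
        have h3 : s * x1 ^ 2 = 0 := by linear_combination -E6
        rcases mul0 h3 with h3 | h3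
        · exact hs.1 h3
        · have h3 := sq0 h3
          subst h3
          apply hD
          ring
  | z4 d h2 =>
    cases hB' with
    | z1 d' hd' =>
      obtain ⟨x0, y0, x1, y1, hD, E1, E2, E3, E4, E5, E6⟩ := Y3Z.ext h
      subst h2
      exact (dec41 x0 y0 x1 y1 d hD E5 E6).elim
    | z2 =>
      obtain ⟨x0, y0, x1, y1, hD, E1, E2, E3, E4, E5, E6⟩ := Y3Z.ext h
      subst h2
      exact (dec42 x0 y0 x1 y1 d hD E1 E2).elim
    | z3 s' h2' hs' => exact absurd h2 h2'
    | z4 d' h2' =>
      obtain ⟨x0, y0, x1, y1, hD, E1, E2, E3, E4, E5, E6⟩ := Y3Z.ext h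
      subst h2
      have : d = d' := dec44 x0 y0 x1 y1 d d' hD E1 E2 E6
      rw [this]
    | z5 a' d' h3 hr => exact (Y3Z.line1 hr.1 h).elim
    | z6 h3 =>
      subst h3
      exact absurd h2 (by norm_num)
  | z5 a d h3 hr =>
    cases hB' with
    | z1 d' hd' => exact (Y3Z.line2 hr.1 h).elim
    | z2 => exact (Y3Z.line2 hr.1 h).elim
    | z3 s' h2' hs' => exact (Y3Z.line2 hr.1 h).elim
    | z4 d' h2' => exact (Y3Z.line2 hr.1 h).elim
    | z5 a' d' h3' hr' =>
      obtain ⟨a0, d0, -, hu⟩ := hc p h3
      obtain ⟨ha, hd⟩ := hu a d hr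
      obtain ⟨ha', hd'⟩ := hu a' d' hr'
      rw [ha, hd, ha', hd']
    | z6 h3' => exact absurd h3' h3
  | z6 h3 =>
    have h30 : (3 : ZMod p) = 0 := by
      subst h3
      rfl
    cases hB' with
    | z1 d' hd' =>
      obtain ⟨x0, y0, x1, y1, hD, E1, E2, E3, E4, E5, E6⟩ := Y3Z.ext h
      exfalso
      have h1 : x1 = 0 := sq0 (by linear_combination -E5)
      subst h1
      apply hD
      linear_combination E4
    | z2 =>
      obtain ⟨x0, y0, x1, y1, hD, E1, E2, E3, E4, E5, E6⟩ := Y3Z.ext h
      exfalso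
      have h1 : x1 * (x1 - 1) = 0 := by linear_combination -E5
      rcases mul0 h1 with h1 | h1
      · subst h1
        have h2 : y1 = 0 := by linear_combination E6
        subst h2
        apply hD
        ring
      · have h1 : x1 = 1 := by linear_combination h1
        subst h1
        have : (1 : ZMod p) = 0 := by linear_combination -E6 + y1 * h30
        exact one_ne_zero this
    | z3 s h2 hs =>
      obtain ⟨x0, y0, x1, y1, hD, E1, E2, E3, E4, E5, E6⟩ := Y3Z.ext h
      exfalso
      have h1 : x1 * (x1 - 1) = 0 := by linear_combination -E5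
      rcases mul0 h1 with h1 | h1
      · subst h1
        have h2 : y1 = 0 := by linear_combination E6
        subst h2
        apply hD
        ring
      · have h1 : x1 = 1 := by linear_combination h1
        subst h1
        have : (1 : ZMod p) = 0 := by linear_combination -E6 + y1 * h30
        exact one_ne_zero this
    | z4 d' h2 =>
      subst h3
      exact absurd h2 (by norm_num)
    | z5 a' d' h3' hr' => exact absurd h3 h3'
    | z6 h3' => rfl

end Pool.NR
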